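import Pool.Agent.Helper41.Bil.M7a4

set_option autoImplicit false

/-!
Piece M7a of MP_190632_an (captain helper58): existence and uniform bounds of the solution curve.
-/

namespace Pool.Agent.Helper58.Bil

open Pool.Agent.Helper41.BilA

open Real Set Filter Topology
open scoped ContDiff

theorem m7a_k2_bdd : ∃ K : ℝ, 0 ≤ K ∧ ∀ x, |k2 x| ≤ K := by
  have hc : Continuous k2 := (chi_div_smooth 2).continuous
  obtain ⟨M, hM⟩ := (isCompact_Icc (a := (0 : ℝ)) (b := 1)).exists_bound_of_continuousOn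
    hc.continuousOn
  refine ⟨max M 1, le_trans zero_le_one (le_max_right _ _), fun x => ?_⟩
  rcases le_or_gt x 0 with hx | hx
  · simp only [k2, chi_nonpos hx, zero_div, abs_zero]
    exact le_trans zero_le_one (le_max_right _ _)
  · rcases le_or_gt x 1 with hx' | hx'
    · exact (hM x ⟨hx.le, hx'⟩).trans (le_max_left _ _)
    · refine le_trans ?_ (le_max_right _ _)
      have h1 := chi_pos hx
      have h2 := chi_le_one x
      rw [k2, abs_of_nonneg (by positivity), div_le_one (by positivity)]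
      nlinarith

theorem M7a {E : Type} [NormedAddCommGroup E] [NormedSpace ℝ E] [FiniteDimensional ℝ E]
    {a : ℝ × ℝ × ℝ × E → ℝ} {G : ℝ × ℝ × ℝ × E → E} {γ ρ ε₀ : ℝ} {upl : ℝ → E}
    (S : Sys a G γ ρ ε₀ upl) :
    ∃ ε₁ > 0, ε₁ ≤ ε₀ ∧ ∃ C : ℝ, ∃ u : ℝ → ℝ → E,
      ∀ ε ∈ Ioo 0 ε₁, Sol a G ρ upl ε (u ε) C := by
  set a' : ℝ × ℝ × ℝ × E → ℝ := fun w => m7cut w.2.2.1 • a w with ha'
  set G' : ℝ × ℝ × ℝ × E → E := fun w => m7cut w.2.2.1 • G w with hG'
  have hcut : SF (fun w : ℝ × ℝ × ℝ × E => m7cut w.2.2.1) :=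
    m7a_SF_of (m7cut_smooth.comp (by fun_prop))
  have hpos0 : ∀ x ∈ Icc (0 : ℝ) (1 / 5), ∀ u : E, ‖u‖ ≤ ρ →
      ∀ᶠ w in 𝓝 ((0, 0, x, u) : ℝ × ℝ × ℝ × E), 0 < a w := by
    intro x hx u hu
    exact continuousAt_const.eventually_lt (m7a_SF_cont S.sa x u) (S.apos x hx u hu)
  have S' : SysC a' G' γ ρ ε₀ upl := by
    refine ⟨m7a_SF_smul hcut S.sa, m7a_SF_smul hcut S.sG, S.γpos, S.ρpos, S.ε₀pos, ?_, ?_, ?_, ?_,
      ?_, ?_, ?_⟩
    · intro x hx u hu
      have h1 := S.apos x ⟨hx.1, by linarith [hx.2]⟩ u hu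
      simp only [ha', m7cut_one (show x ≤ 17 / 100 by linarith [hx.2]), one_smul]
      exact h1
    · intro x hx u hu
      filter_upwards [hpos0 x hx u hu] with w hw
      exact mul_nonneg (m7cut_nonneg _) hw.le
    · intro x hx u hu
      have h1 := S.G0 x ⟨hx.1, by linarith [hx.2]⟩ u hu
      simp only [hG', m7cut_one (show x ≤ 17 / 100 by linarith [hx.2]), one_smul]
      exact h1
    · intro x hx u hu
      have h1 := S.G1 x ⟨hx.1, by linarith [hx.2]⟩ u hu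
      simp only [hG', m7cut_one (show x ≤ 17 / 100 by linarith [hx.2]), one_smul]
      exact h1
    · intro w hw
      simp only [ha', m7cut_zero hw, zero_smul]
    · intro w hw
      simp only [hG', m7cut_zero hw, zero_smul]
    · intro ε hε
      obtain ⟨h1, h2⟩ := S.pl ε hε
      refine ⟨h1, fun x hx => ?_⟩
      rcases le_or_gt x (1 / 5) with hx' | hx'
      · simp only [hG', h2 x ⟨hx, hx'⟩, smul_zero]
      · simp only [hG', m7cut_zero (show (19 : ℝ) / 100 ≤ x by linarith), zero_smul]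
  obtain ⟨ρ₁, ρ₂, r, A, B, m, C⟩ := exists_Cst S'
  -- neighbourhood for the original `a`
  have hK0 : IsCompact (Metric.closedBall (0 : E) ρ) := isCompact_closedBall _ _
  obtain ⟨A0, hA0, hA⟩ := base_bound hK0 (1 / 5) (fun p : ℝ × E => a (0, 0, p.1, p.2)) (by
      intro x u
      exact ContinuousAt.comp (f := fun p : ℝ × E => ((0, 0, p.1, p.2) : ℝ × ℝ × ℝ × E))
          (g := a) (x := (x, u)) (m7a_SF_cont S.sa x u) (Continuous.continuousAt (by fun_prop)))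
  obtain ⟨r', hr', h'⟩ := unif_base hK0 (x₀ := 0) (x₁ := 1 / 5)
    (Q := fun w => 0 < a w ∧ a w < A0 + 1) (by
      intro x hx u hu
      have e4 : ∀ᶠ w in 𝓝 ((0, 0, x, u) : ℝ × ℝ × ℝ × E), a w < A0 + 1 := by
        apply (m7a_SF_cont S.sa x u).eventually_lt continuousAt_const
        have h2 := (le_abs_self _).trans (hA x hx u hu)
        linarith
      filter_upwards [hpos0 x hx u (by simpa using hu), e4] with w a1 a2 using ⟨a1, a2⟩)
  obtain ⟨K, hK, hk2⟩ := m7a_k2_bdd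
  -- choice of `ε₁`
  have hev : ∀ᶠ ε in 𝓝[>] (0 : ℝ), ε < ε₀ ∧ ε < r ∧ ε < r' ∧ ε * K < r ∧ ε * K < r' ∧
      ε ^ 2 * A < 1 / 200 ∧ ε ^ 2 * (A0 + 1) < 1 / 50 ∧ (ε * (ε * K)) * B < 1 / 2 := by
    have h0 : ∀ (f : ℝ → ℝ) (c : ℝ), Continuous f → f 0 < c → ∀ᶠ ε in 𝓝[>] (0 : ℝ), f ε < c :=
      fun f c hf hc => nhdsWithin_le_nhds (hf.continuousAt.eventually (gt_mem_nhds hc))
    filter_upwards [h0 (fun ε => ε) ε₀ continuous_id S.ε₀pos, h0 (fun ε => ε) r continuous_id C.rpos,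
      h0 (fun ε => ε) r' continuous_id hr', h0 (fun ε => ε * K) r (by fun_prop) (by simpa using C.rpos),
      h0 (fun ε => ε * K) r' (by fun_prop) (by simpa using hr'),
      h0 (fun ε => ε ^ 2 * A) (1 / 200) (by fun_prop) (by norm_num),
      h0 (fun ε => ε ^ 2 * (A0 + 1)) (1 / 50) (by fun_prop) (by norm_num),
      h0 (fun ε => (ε * (ε * K)) * B) (1 / 2) (by fun_prop) (by norm_num)] with
      ε e1 e2 e3 e4 e5 e6 e7 e8 using ⟨e1, e2, e3, e4, e5, e6, e7, e8⟩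
  obtain ⟨ε₁, hε₁, hsub⟩ := (mem_nhdsGT_iff_exists_Ioo_subset).1 hev
  refine ⟨min ε₁ ε₀, lt_min hε₁ S.ε₀pos, min_le_right _ _, max ρ₁ ρ₂,
    fun ε => uu a' G' ε (upl ε), ?_⟩
  intro ε hε
  have hε1 : ε ∈ Ioo 0 ε₁ := ⟨hε.1, hε.2.trans_le (min_le_left _ _)⟩
  obtain ⟨e1, e2, e3, e4, e5, e6, e7, e8⟩ := hsub hε1
  have htt : ∀ x, |tt ε x| ≤ ε := fun x => by
    rcases le_or_gt x 0 with hx | hx
    · rw [tt_nonpos hx, abs_zero]; exact hε.1.le
    · rw [tt, abs_of_nonneg (mul_nonneg hε.1.le (chi_pos hx).le)]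
      calc ε * chi x ≤ ε * 1 := mul_le_mul_of_nonneg_left (chi_le_one x) hε.1.le
        _ = ε := mul_one ε
  have hts : ∀ x, |ts ε x| ≤ ε * K := fun x => by
    rw [ts, abs_mul, abs_of_pos hε.1]
    exact mul_le_mul_of_nonneg_left (hk2 x) hε.1.le
  have hsq : ∀ x, tt ε x ^ 2 ≤ ε ^ 2 := fun x => by
    rw [← sq_abs (tt ε x)]
    exact pow_le_pow_left₀ (abs_nonneg _) (htt x) 2
  have hs : Sml ε ε₀ r A B := by
    refine ⟨hε.1, e1, fun x => (htt x).trans_lt e2, fun x => (hts x).trans_lt e4, fun x => ?_,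
      fun x => ?_⟩
    · exact (mul_le_mul_of_nonneg_right (hsq x) C.Apos.le).trans e6.le
    · refine le_trans (mul_le_mul_of_nonneg_right ?_ C.Bpos.le) e8.le
      rw [abs_mul]
      exact mul_le_mul (htt x) (hts x) (abs_nonneg _) hε.1.le
  obtain ⟨p1, p2, p3, p4, p5, p6⟩ := solC S' C hs
  show Sol a G ρ upl ε (uu a' G' ε (upl ε)) (max ρ₁ ρ₂)
  generalize uu a' G' ε (upl ε) = v at p1 p2 p3 p4 p5 p6 ⊢
  have hapos : ∀ x ∈ Icc (0 : ℝ) (1 / 5), 0 < x → 0 < a (WW ε v x) ∧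
      a (WW ε v x) < A0 + 1 := by
    intro x hx hx0
    exact h' _ _ ((htt x).trans_lt e3) ((hts x).trans_lt e5) x hx _ (by simpa using p3 x hx0)
  refine ⟨p1, p2, p3, fun x hx => (hapos x ⟨hx.1.le, hx.2.le⟩ hx.1).1, ?_,
    fun x hx => (p5 x hx).trans (le_max_left _ _), fun x hx => (p6 x hx).trans (le_max_right _ _)⟩
  intro x hx
  rcases lt_or_ge x (17 / 100) with hx' | hx'
  · have h1 := p4 x hx.1
    have ea : a' (WW ε v x) = a (WW ε v x) := by
      have : m7cut (WW ε v x).2.2.1 = 1 := m7cut_one hx'.le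
      simp only [ha', this, one_smul]
    have eG : G' (WW ε v x) = G (WW ε v x) := by
      have : m7cut (WW ε v x).2.2.1 = 1 := m7cut_one hx'.le
      simp only [hG', this, one_smul]
    rw [ea, eG] at h1
    exact h1
  · have h1 : v x = upl ε := p2 x (by linarith)
    have h2 : WW ε v x = (ε, ε / x ^ 2, x, upl ε) := by
      simp only [WW, tt, ts, k2, chi_one (show (1 : ℝ) / 10 ≤ x by linarith), h1, mul_one]
      congr 2
      ring
    have h3 : G (WW ε v x) = 0 := by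
      rw [h2]; exact (S.pl ε ⟨hε.1, e1⟩).2 x ⟨by linarith, hx.2.le⟩
    rw [h3, smul_zero, sub_zero, h1]
    apply p2
    have h4 := (hapos x ⟨hx.1.le, hx.2.le⟩ hx.1).2
    have h5 : tt ε x ^ 2 * a (WW ε v x) ≤ 1 / 50 := by
      have h6 := (hapos x ⟨hx.1.le, hx.2.le⟩ hx.1).1
      calc tt ε x ^ 2 * a (WW ε v x) ≤ ε ^ 2 * (A0 + 1) :=
            mul_le_mul (hsq x) h4.le h6.le (sq_nonneg _)
        _ ≤ 1 / 50 := e7.le
    linarith

end Pool.Agent.Helper58.Bil
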