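import Pool.Agent.Helper28.Bil.Pro

set_option autoImplicit false

/-!
Piece M7a of MP_190632_an (captain helper58), part 1: closure of `SF`, the systems for `th u` and
`th (th u)`, and the choice of constants.
-/

namespace Pool.Agent.Helper41.BilA

open Pool.Agent.Helper58.Bil

open Real Set Filter Topology
open scoped ContDiff

section SFclosure

variable {E E' F : Type} [NormedAddCommGroup E] [NormedSpace ℝ E]
  [NormedAddCommGroup E'] [NormedSpace ℝ E'] [NormedAddCommGroup F] [NormedSpace ℝ F]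

theorem m7a_SF_self {Φ : ℝ × ℝ × ℝ × E → F} (h : SF Φ) (x : ℝ) (u : E) :
    ContDiffAt ℝ ∞ Φ (0, 0, x, u) := Filter.Eventually.self_of_nhds (h x u)

theorem m7a_SF_cont {Φ : ℝ × ℝ × ℝ × E → F} (h : SF Φ) (x : ℝ) (u : E) :
    ContinuousAt Φ (0, 0, x, u) := (m7a_SF_self h x u).continuousAt

theorem m7a_SF_of {Φ : ℝ × ℝ × ℝ × E → F} (h : ContDiff ℝ ∞ Φ) : SF Φ := fun _ _ =>
  Filter.Eventually.of_forall fun _ => h.contDiffAt

theorem m7a_SF_add {Φ Ψ : ℝ × ℝ × ℝ × E → F} (h : SF Φ) (h' : SF Ψ) :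
    SF (fun w => Φ w + Ψ w) := fun x u => by
  filter_upwards [h x u, h' x u] with w hw hw' using hw.add hw'

theorem m7a_SF_sub {Φ Ψ : ℝ × ℝ × ℝ × E → F} (h : SF Φ) (h' : SF Ψ) :
    SF (fun w => Φ w - Ψ w) := fun x u => by
  filter_upwards [h x u, h' x u] with w hw hw' using hw.sub hw'

theorem m7a_SF_smul {a : ℝ × ℝ × ℝ × E → ℝ} {Φ : ℝ × ℝ × ℝ × E → F} (h : SF a) (h' : SF Φ) :
    SF (fun w => a w • Φ w) := fun x u => by
  filter_upwards [h x u, h' x u] with w hw hw' using hw.smul hw'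

theorem m7a_SF_comp {Φ : ℝ × ℝ × ℝ × E → F} (h : SF Φ) {g : ℝ × ℝ × ℝ × E' → ℝ × ℝ × ℝ × E}
    (hg : ContDiff ℝ ∞ g) (hb : ∀ (x : ℝ) (u : E'), ∃ (x' : ℝ) (u' : E), g (0, 0, x, u) = (0, 0, x', u')) :
    SF (fun w => Φ (g w)) := fun x u => by
  obtain ⟨x', u', e⟩ := hb x u
  have h1 : ∀ᶠ w in 𝓝 (g (0, 0, x, u)), ContDiffAt ℝ ∞ Φ w := by
    rw [e]; exact h x' u'
  have h2 := hg.continuous.continuousAt.eventually h1
  filter_upwards [h2] with w hw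
  exact ContDiffAt.comp w hw hg.contDiffAt

theorem m7a_SF_fst {Φ : ℝ × ℝ × ℝ × E → F} (h : SF Φ) :
    SF (fun w : ℝ × ℝ × ℝ × (E × E') => Φ (w.1, w.2.1, w.2.2.1, w.2.2.2.1)) :=
  m7a_SF_comp (g := fun w : ℝ × ℝ × ℝ × (E × E') => (w.1, w.2.1, w.2.2.1, w.2.2.2.1)) h
    (by fun_prop) (fun x u => ⟨x, u.1, rfl⟩)

end SFclosure

/-! ### Cutoff -/

/-- the cutoff: `1` for `x ≤ 17/100`, `0` for `x ≥ 19/100`. -/
noncomputable def m7cut (x : ℝ) : ℝ := 1 - smoothTransition (50 * (x - 17 / 100))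

theorem m7cut_smooth : ContDiff ℝ ∞ m7cut := by
  unfold m7cut
  have := smoothTransition.contDiff (n := (⊤ : ℕ∞))
  exact contDiff_const.sub (this.comp (contDiff_const.mul (contDiff_id.sub contDiff_const)))

theorem m7cut_one {x : ℝ} (hx : x ≤ 17 / 100) : m7cut x = 1 := by
  unfold m7cut
  rw [smoothTransition.zero_of_nonpos (by linarith)]; ring

theorem m7cut_zero {x : ℝ} (hx : 19 / 100 ≤ x) : m7cut x = 0 := by
  unfold m7cut
  rw [smoothTransition.one_of_one_le (by linarith)]; ring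

theorem m7cut_nonneg (x : ℝ) : 0 ≤ m7cut x := by
  unfold m7cut
  linarith [smoothTransition.le_one (50 * (x - 17 / 100))]

/-! ### The systems for `th u` and `th (th u)` -/

section Gam

variable {E : Type} [NormedAddCommGroup E] [NormedSpace ℝ E]

/-- `th (Φ - t H)` bookkeeping. -/
noncomputable def Gam1 (a : ℝ × ℝ × ℝ × E → ℝ) (G : ℝ × ℝ × ℝ × E → E) :
    ℝ × ℝ × ℝ × (E × E) → E := fun w =>
  (kt w.2.2.1 • G (w.1, w.2.1, w.2.2.1, w.2.2.2.1) + pro G w) +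
    mm a w • (w.2.2.2.2 - w.1 • (kt w.2.2.1 • G (w.1, w.2.1, w.2.2.1, w.2.2.2.1) + pro G w))

noncomputable def Gam2 (a : ℝ × ℝ × ℝ × E → ℝ) (G : ℝ × ℝ × ℝ × E → E) :
    ℝ × ℝ × ℝ × ((E × E) × (E × E)) → E := fun w =>
  (kt w.2.2.1 • Gam1 a G (w.1, w.2.1, w.2.2.1, w.2.2.2.1) + pro (Gam1 a G) w) +
    mm a (w.1, w.2.1, w.2.2.1, w.2.2.2.1) • (w.2.2.2.2.2 -
      w.1 • (kt w.2.2.1 • Gam1 a G (w.1, w.2.1, w.2.2.1, w.2.2.2.1) + pro (Gam1 a G) w))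

theorem SF_Gam1 {a : ℝ × ℝ × ℝ × E → ℝ} {G : ℝ × ℝ × ℝ × E → E} (ha : SF a) (hG : SF G) :
    SF (Gam1 a G) := by
  have hk : SF (fun w : ℝ × ℝ × ℝ × (E × E) => kt w.2.2.1) :=
    m7a_SF_of (kt_smooth.comp (by fun_prop))
  have h1 : SF (fun w : ℝ × ℝ × ℝ × (E × E) =>
      kt w.2.2.1 • G (w.1, w.2.1, w.2.2.1, w.2.2.2.1) + pro G w) :=
    m7a_SF_add (m7a_SF_smul hk (m7a_SF_fst hG)) hG.pro
  have h2 : SF (fun w : ℝ × ℝ × ℝ × (E × E) => w.1) := m7a_SF_of (by fun_prop)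
  have h3 : SF (fun w : ℝ × ℝ × ℝ × (E × E) => w.2.2.2.2) := m7a_SF_of (by fun_prop)
  exact m7a_SF_add h1 (m7a_SF_smul ha.mm (m7a_SF_sub h3 (m7a_SF_smul h2 h1)))

theorem SF_Gam2 {a : ℝ × ℝ × ℝ × E → ℝ} {G : ℝ × ℝ × ℝ × E → E} (ha : SF a) (hG : SF G) :
    SF (Gam2 a G) := by
  have hk : SF (fun w : ℝ × ℝ × ℝ × ((E × E) × (E × E)) => kt w.2.2.1) :=
    m7a_SF_of (kt_smooth.comp (by fun_prop))
  have h1 : SF (fun w : ℝ × ℝ × ℝ × ((E × E) × (E × E)) =>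
      kt w.2.2.1 • Gam1 a G (w.1, w.2.1, w.2.2.1, w.2.2.2.1) + pro (Gam1 a G) w) :=
    m7a_SF_add (m7a_SF_smul hk (m7a_SF_fst (SF_Gam1 ha hG))) (SF_Gam1 ha hG).pro
  have h2 : SF (fun w : ℝ × ℝ × ℝ × ((E × E) × (E × E)) => w.1) := m7a_SF_of (by fun_prop)
  have h3 : SF (fun w : ℝ × ℝ × ℝ × ((E × E) × (E × E)) => w.2.2.2.2.2) :=
    m7a_SF_of (by fun_prop)
  exact m7a_SF_add h1 (m7a_SF_smul (m7a_SF_fst ha.mm) (m7a_SF_sub h3 (m7a_SF_smul h2 h1)))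

theorem Gam1_base (a : ℝ × ℝ × ℝ × E → ℝ) {G : ℝ × ℝ × ℝ × E → E} (x : ℝ) (w : E × E) :
    Gam1 a G (0, 0, x, w) = kt x • G (0, 0, x, w.1) + fderiv ℝ G (0, 0, x, w.1) (0, 0, x ^ 2, w.2) := by
  unfold Gam1
  simp only [mm_base, zero_smul, add_zero, pro, mul_zero]

theorem Gam2_base (a : ℝ × ℝ × ℝ × E → ℝ) {G : ℝ × ℝ × ℝ × E → E} (x : ℝ)
    (w : (E × E) × (E × E)) :
    Gam2 a G (0, 0, x, w) = kt x • Gam1 a G (0, 0, x, w.1) +
      fderiv ℝ (Gam1 a G) (0, 0, x, w.1) (0, 0, x ^ 2, w.2) := by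
  unfold Gam2
  simp only [mm_base, zero_smul, add_zero, pro, mul_zero]

/-- partial derivative in the last variable. -/
theorem fderiv_last {E F : Type} [NormedAddCommGroup E] [NormedSpace ℝ E] [NormedAddCommGroup F]
    [NormedSpace ℝ F] {Φ : ℝ × ℝ × ℝ × E → F} {t s x : ℝ} {u : E}
    (h : DifferentiableAt ℝ Φ (t, s, x, u)) (v : E) :
    fderiv ℝ (fun v => Φ (t, s, x, v)) u v = fderiv ℝ Φ (t, s, x, u) (0, 0, 0, v) := by
  have h1 : HasFDerivAt (fun v : E => ((t, s, x, v) : ℝ × ℝ × ℝ × E))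
      ((0 : E →L[ℝ] ℝ).prod ((0 : E →L[ℝ] ℝ).prod ((0 : E →L[ℝ] ℝ).prod
        (ContinuousLinearMap.id ℝ E)))) u :=
    (hasFDerivAt_const t u).prodMk ((hasFDerivAt_const s u).prodMk
      ((hasFDerivAt_const x u).prodMk (hasFDerivAt_id u)))
  have h2 := (h.hasFDerivAt (x := (t, s, x, u))).comp u h1
  have h3 : fderiv ℝ (fun v => Φ (t, s, x, v)) u = _ := h2.fderiv
  rw [h3]
  rfl

theorem fderiv_split {E F : Type} [NormedAddCommGroup E] [NormedSpace ℝ E] [NormedAddCommGroup F]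
    [NormedSpace ℝ F] (L : ℝ × ℝ × ℝ × E →L[ℝ] F) (x : ℝ) (v : E) :
    L (0, 0, x, v) = L (0, 0, x, 0) + L (0, 0, 0, v) := by
  rw [← map_add]; simp

/-- derivative of `Gam1` in the direction of the second component. -/
theorem Gam1_fderiv_last {a : ℝ × ℝ × ℝ × E → ℝ} {G : ℝ × ℝ × ℝ × E → E} (ha : SF a) (hG : SF G)
    (x : ℝ) (w : E × E) (z : E) :
    fderiv ℝ (Gam1 a G) (0, 0, x, w) (0, 0, 0, ((0 : E), z)) =
      fderiv ℝ G (0, 0, x, w.1) (0, 0, 0, z) := by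
  have hd : DifferentiableAt ℝ (Gam1 a G) (0, 0, x, w) :=
    (m7a_SF_self (SF_Gam1 ha hG) x w).differentiableAt (by simp)
  -- along the line `w.2 + τ z`
  have h1 : HasDerivAt (fun τ : ℝ => ((0, 0, x, (w.1, w.2 + τ • z)) : ℝ × ℝ × ℝ × (E × E)))
      (0, 0, 0, ((0 : E), z)) 0 := by
    have h2 : HasDerivAt (fun τ : ℝ => w.2 + τ • z) z 0 := by
      simpa using ((hasDerivAt_id (0 : ℝ)).smul_const z).const_add w.2
    exact (hasDerivAt_const _ _).prodMk ((hasDerivAt_const _ _).prodMk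
      ((hasDerivAt_const _ _).prodMk ((hasDerivAt_const _ _).prodMk h2)))
  have h3 : HasDerivAt (fun τ : ℝ => Gam1 a G (0, 0, x, (w.1, w.2 + τ • z)))
      (fderiv ℝ (Gam1 a G) (0, 0, x, w) (0, 0, 0, ((0 : E), z))) 0 := by
    have h4 : HasFDerivAt (Gam1 a G) (fderiv ℝ (Gam1 a G) (0, 0, x, w))
        ((fun τ : ℝ => ((0, 0, x, (w.1, w.2 + τ • z)) : ℝ × ℝ × ℝ × (E × E))) 0) := by
      simpa using hd.hasFDerivAt
    exact h4.comp_hasDerivAt 0 h1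
  have h5 : HasDerivAt (fun τ : ℝ => Gam1 a G (0, 0, x, (w.1, w.2 + τ • z)))
      (fderiv ℝ G (0, 0, x, w.1) (0, 0, 0, z)) 0 := by
    have h6 : (fun τ : ℝ => Gam1 a G (0, 0, x, (w.1, w.2 + τ • z))) = fun τ : ℝ =>
        (kt x • G (0, 0, x, w.1) + fderiv ℝ G (0, 0, x, w.1) (0, 0, x ^ 2, w.2)) +
          τ • fderiv ℝ G (0, 0, x, w.1) (0, 0, 0, z) := by
      funext τ
      rw [Gam1_base]
      simp only
      rw [add_assoc, ← map_smul, ← map_add]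
      simp
    rw [h6]
    simpa using ((hasDerivAt_id (0 : ℝ)).smul_const
      (fderiv ℝ G (0, 0, x, w.1) (0, 0, 0, z))).const_add
        (kt x • G (0, 0, x, w.1) + fderiv ℝ G (0, 0, x, w.1) (0, 0, x ^ 2, w.2))
  exact h3.unique h5

end Gam

end Pool.Agent.Helper41.BilA
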