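import Pool.Agent.Helper41.Bil.M7a1

set_option autoImplicit false

/-!
Piece M7a of MP_190632_an, part 2: constants.
-/

namespace Pool.Agent.Helper41.BilA

open Pool.Agent.Helper58.Bil

open Real Set Filter Topology
open scoped ContDiff

/-- The cut-off system. -/
structure SysC {E : Type} [NormedAddCommGroup E] [NormedSpace ℝ E]
    (a : ℝ × ℝ × ℝ × E → ℝ) (G : ℝ × ℝ × ℝ × E → E) (γ ρ ε₀ : ℝ) (upl : ℝ → E) : Prop where
  sa : SF a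
  sG : SF G
  γpos : 0 < γ
  ρpos : 0 < ρ
  ε₀pos : 0 < ε₀
  apos : ∀ x ∈ Icc (0 : ℝ) (4 / 25), ∀ u : E, ‖u‖ ≤ ρ → 0 < a (0, 0, x, u)
  ann : ∀ x ∈ Icc (0 : ℝ) (1 / 5), ∀ u : E, ‖u‖ ≤ ρ →
    ∀ᶠ w in 𝓝 ((0, 0, x, u) : ℝ × ℝ × ℝ × E), 0 ≤ a w
  G0 : ∀ x ∈ Icc (0 : ℝ) (4 / 25), ∀ u : E, ‖u‖ ≤ ρ → ‖G (0, 0, x, u) - γ • u‖ ≤ γ * ρ / 2
  G1 : ∀ x ∈ Icc (0 : ℝ) (4 / 25), ∀ u : E, ‖u‖ ≤ ρ →
    ‖fderiv ℝ (fun v => G (0, 0, x, v)) u - γ • ContinuousLinearMap.id ℝ E‖ ≤ γ / 2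
  az : ∀ w : ℝ × ℝ × ℝ × E, 19 / 100 ≤ w.2.2.1 → a w = 0
  Gz : ∀ w : ℝ × ℝ × ℝ × E, 19 / 100 ≤ w.2.2.1 → G w = 0
  pl : ∀ ε ∈ Ioo 0 ε₀, ‖upl ε‖ ≤ ρ ∧ ∀ x ≥ (3 / 20 : ℝ), G (ε, ε / x ^ 2, x, upl ε) = 0

/-- Lemma U. -/
theorem lemU {W F : Type} [NormedAddCommGroup W] [NormedSpace ℝ W] [NormedAddCommGroup F]
    [NormedSpace ℝ F] {K : Set W} (hK : IsCompact K) {Γ : ℝ × ℝ × ℝ × W → F} {pj : W → F}
    (hp : Continuous pj) {γ R x₁ : ℝ} (hγ : 0 < γ) (hR : 0 < R)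
    (hΓ : ∀ x ∈ Icc 0 x₁, ∀ w ∈ K, ContinuousAt Γ (0, 0, x, w))
    (hb : ∀ x ∈ Icc 0 x₁, ∀ w ∈ K, ‖Γ (0, 0, x, w) - γ • pj w‖ < 3 / 4 * γ * R)
    (hpR : ∀ w ∈ K, ‖pj w‖ ≤ R) :
    ∃ r > 0, ∀ t s : ℝ, |t| < r → |s| < r → 0 ≤ t → ∀ x ∈ Icc 0 x₁, ∀ w ∈ K,
      ‖pj w - t • Γ (t, s, x, w)‖ ≤ R := by
  obtain ⟨r, hr, h⟩ := unif_base (E := W) hK (x₀ := 0) (x₁ := x₁)
    (Q := fun w => ‖Γ w - γ • pj w.2.2.2‖ < 3 / 4 * γ * R) (by
      intro x hx u hu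
      have h1 : ContinuousAt (fun w : ℝ × ℝ × ℝ × W => ‖Γ w - γ • pj w.2.2.2‖) (0, 0, x, u) := by
        apply ContinuousAt.norm
        apply (hΓ x hx u hu).sub
        exact (Continuous.continuousAt (by fun_prop))
      exact h1.eventually_lt continuousAt_const (hb x hx u hu))
  refine ⟨min r (1 / γ), lt_min hr (by positivity), ?_⟩
  intro t s ht hs ht0 x hx w hw
  have h1 := h t s (ht.trans_le (min_le_left _ _)) (hs.trans_le (min_le_left _ _)) x hx w hw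
  have h2 : t * γ ≤ 1 := by
    have h3 : t < 1 / γ := (le_abs_self t).trans_lt (ht.trans_le (min_le_right _ _))
    rw [lt_div_iff₀ hγ] at h3
    exact h3.le
  have h4 : pj w - t • Γ (t, s, x, w) = (1 - t * γ) • pj w - t • (Γ (t, s, x, w) - γ • pj w) := by
    rw [sub_smul, smul_sub, one_smul, mul_smul]; abel
  rw [h4]
  calc ‖(1 - t * γ) • pj w - t • (Γ (t, s, x, w) - γ • pj w)‖
      ≤ ‖(1 - t * γ) • pj w‖ + ‖t • (Γ (t, s, x, w) - γ • pj w)‖ := norm_sub_le _ _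
    _ = (1 - t * γ) * ‖pj w‖ + t * ‖Γ (t, s, x, w) - γ • pj w‖ := by
        rw [norm_smul, norm_smul, Real.norm_of_nonneg (by linarith), Real.norm_of_nonneg ht0]
    _ ≤ (1 - t * γ) * R + t * (3 / 4 * γ * R) := by
        refine add_le_add (mul_le_mul_of_nonneg_left (hpR w hw) (by linarith))
          (mul_le_mul_of_nonneg_left h1.le ht0)
    _ ≤ R := by nlinarith [mul_nonneg ht0 (mul_pos hγ hR).le]

section consts

variable {E : Type} [NormedAddCommGroup E] [NormedSpace ℝ E] [FiniteDimensional ℝ E]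
  {a : ℝ × ℝ × ℝ × E → ℝ} {G : ℝ × ℝ × ℝ × E → E} {γ ρ ε₀ : ℝ} {upl : ℝ → E}

/-- continuity at base points of derivative terms. -/
theorem cont_fderiv_base {E F : Type} [NormedAddCommGroup E] [NormedSpace ℝ E]
    [NormedAddCommGroup F] [NormedSpace ℝ F] {Φ : ℝ × ℝ × ℝ × E → F} (h : SF Φ) (x : ℝ) (u : E) :
    ContinuousAt (fderiv ℝ Φ) (0, 0, x, u) := by
  have h1 := m7a_SF_self h x u
  exact (h1.fderiv_right (m := 0) (by simp)).continuousAt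

/-- a bound on a compact set of base points. -/
theorem base_bound {W F : Type} [NormedAddCommGroup W] [NormedSpace ℝ W]
    [NormedAddCommGroup F] {K : Set W} (hK : IsCompact K) (x₁ : ℝ) (f : ℝ × W → F)
    (hf : ∀ x : ℝ, ∀ w : W, ContinuousAt f (x, w)) :
    ∃ M, 0 ≤ M ∧ ∀ x ∈ Icc 0 x₁, ∀ w ∈ K, ‖f (x, w)‖ ≤ M := by
  have hc : Continuous f := continuous_iff_continuousAt.2 fun p => hf p.1 p.2
  obtain ⟨M, hM⟩ := ((isCompact_Icc (a := (0 : ℝ)) (b := x₁)).prod hK).exists_bound_of_continuousOn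
    hc.continuousOn
  exact ⟨max M 0, le_max_right _ _, fun x hx w hw => (hM (x, w) ⟨hx, hw⟩).trans (le_max_left _ _)⟩

theorem level1 (S : SysC a G γ ρ ε₀ upl) :
    ∃ ρ₁ > 0, ∀ x ∈ Icc (0 : ℝ) (4 / 25), ∀ w : E × E, ‖w.1‖ ≤ ρ → ‖w.2‖ ≤ ρ₁ →
      ‖Gam1 a G (0, 0, x, w) - γ • w.2‖ < 3 / 4 * γ * ρ₁ := by
  obtain ⟨M, hM0, hM⟩ := base_bound (isCompact_closedBall (0 : E) ρ) (4 / 25)
    (fun p : ℝ × E => kt p.1 • G (0, 0, p.1, p.2) +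
      fderiv ℝ G (0, 0, p.1, p.2) (0, 0, p.1 ^ 2, 0)) (by
      intro x u
      have e : ContinuousAt (fun p : ℝ × E => ((0, 0, p.1, p.2) : ℝ × ℝ × ℝ × E)) (x, u) :=
        Continuous.continuousAt (by fun_prop)
      have h1 : ContinuousAt (fun p : ℝ × E => G (0, 0, p.1, p.2)) (x, u) :=
        ContinuousAt.comp (f := fun p : ℝ × E => ((0, 0, p.1, p.2) : ℝ × ℝ × ℝ × E))
          (g := G) (x := (x, u)) (m7a_SF_cont S.sG x u) e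
      have h2 : ContinuousAt (fun p : ℝ × E => fderiv ℝ G (0, 0, p.1, p.2)) (x, u) :=
        ContinuousAt.comp (f := fun p : ℝ × E => ((0, 0, p.1, p.2) : ℝ × ℝ × ℝ × E))
          (g := fderiv ℝ G) (x := (x, u)) (cont_fderiv_base S.sG x u) e
      have h3 : ContinuousAt (fun p : ℝ × E => kt p.1) (x, u) :=
        (kt_smooth.continuous.comp continuous_fst).continuousAt
      refine (h3.smul h1).add (h2.clm_apply ?_)
      exact Continuous.continuousAt (by fun_prop))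
  refine ⟨4 * M / γ + 1, by have := S.γpos; positivity, ?_⟩
  intro x hx w hw1 hw2
  have hγ := S.γpos
  rw [Gam1_base, fderiv_split]
  have hd : DifferentiableAt ℝ G (0, 0, x, w.1) := (m7a_SF_self S.sG x w.1).differentiableAt (by simp)
  have h1 := hM x hx w.1 (by simpa using hw1)
  have h2 := S.G1 x hx w.1 hw1
  have h3 : ‖fderiv ℝ G (0, 0, x, w.1) (0, 0, 0, w.2) - γ • w.2‖ ≤ γ / 2 * ‖w.2‖ := by
    rw [← fderiv_last hd]
    have h4 := (fderiv ℝ (fun v => G (0, 0, x, v)) w.1 - γ • ContinuousLinearMap.id ℝ E).le_opNorm w.2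
    refine le_trans (le_of_eq ?_) (h4.trans (mul_le_mul_of_nonneg_right h2 (norm_nonneg _)))
    simp
  calc ‖kt x • G (0, 0, x, w.1) + (fderiv ℝ G (0, 0, x, w.1) (0, 0, x ^ 2, 0) +
        fderiv ℝ G (0, 0, x, w.1) (0, 0, 0, w.2)) - γ • w.2‖
      = ‖(kt x • G (0, 0, x, w.1) + fderiv ℝ G (0, 0, x, w.1) (0, 0, x ^ 2, 0)) +
        (fderiv ℝ G (0, 0, x, w.1) (0, 0, 0, w.2) - γ • w.2)‖ := by congr 1; abel
    _ ≤ M + γ / 2 * ‖w.2‖ := (norm_add_le _ _).trans (add_le_add h1 h3)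
    _ ≤ M + γ / 2 * (4 * M / γ + 1) := by gcongr
    _ < 3 / 4 * γ * (4 * M / γ + 1) := by
        have h5 : γ * (4 * M / γ) = 4 * M := by field_simp
        nlinarith

theorem level2 (S : SysC a G γ ρ ε₀ upl) (ρ₁ : ℝ) :
    ∃ ρ₂ > 0, ∀ x ∈ Icc (0 : ℝ) (4 / 25), ∀ w : (E × E) × (E × E), ‖w.1.1‖ ≤ ρ → ‖w.1.2‖ ≤ ρ₁ →
      ‖w.2.1‖ ≤ ρ₁ → ‖w.2.2‖ ≤ ρ₂ →
      ‖Gam2 a G (0, 0, x, w) - γ • w.2.2‖ < 3 / 4 * γ * ρ₂ := by
  have hS1 := SF_Gam1 S.sa S.sG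
  obtain ⟨M, hM0, hM⟩ := base_bound (((isCompact_closedBall (0 : E) ρ).prod
      (isCompact_closedBall (0 : E) ρ₁)).prod (isCompact_closedBall (0 : E) ρ₁)) (4 / 25)
    (fun p : ℝ × ((E × E) × E) => kt p.1 • Gam1 a G (0, 0, p.1, p.2.1) +
      fderiv ℝ (Gam1 a G) (0, 0, p.1, p.2.1) (0, 0, p.1 ^ 2, (p.2.2, 0))) (by
      intro x u
      have e : ContinuousAt (fun p : ℝ × ((E × E) × E) =>
          ((0, 0, p.1, p.2.1) : ℝ × ℝ × ℝ × (E × E))) (x, u) :=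
        Continuous.continuousAt (by fun_prop)
      have h1 : ContinuousAt (fun p : ℝ × ((E × E) × E) => Gam1 a G (0, 0, p.1, p.2.1)) (x, u) :=
        ContinuousAt.comp (f := fun p : ℝ × ((E × E) × E) =>
          ((0, 0, p.1, p.2.1) : ℝ × ℝ × ℝ × (E × E)))
          (g := Gam1 a G) (x := (x, u)) (m7a_SF_cont hS1 x u.1) e
      have h2 : ContinuousAt (fun p : ℝ × ((E × E) × E) =>
          fderiv ℝ (Gam1 a G) (0, 0, p.1, p.2.1)) (x, u) :=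
        ContinuousAt.comp (f := fun p : ℝ × ((E × E) × E) =>
          ((0, 0, p.1, p.2.1) : ℝ × ℝ × ℝ × (E × E)))
          (g := fderiv ℝ (Gam1 a G)) (x := (x, u)) (cont_fderiv_base hS1 x u.1) e
      have h3 : ContinuousAt (fun p : ℝ × ((E × E) × E) => kt p.1) (x, u) :=
        (kt_smooth.continuous.comp continuous_fst).continuousAt
      refine (h3.smul h1).add (h2.clm_apply ?_)
      exact Continuous.continuousAt (by fun_prop))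
  refine ⟨4 * M / γ + 1, by have := S.γpos; positivity, ?_⟩
  intro x hx w hw1 hw2 hw3 hw4
  have hγ := S.γpos
  have hd : DifferentiableAt ℝ G (0, 0, x, w.1.1) :=
    (m7a_SF_self S.sG x w.1.1).differentiableAt (by simp)
  have h0 : fderiv ℝ (Gam1 a G) (0, 0, x, w.1) (0, 0, x ^ 2, w.2) =
      fderiv ℝ (Gam1 a G) (0, 0, x, w.1) (0, 0, x ^ 2, (w.2.1, 0)) +
        fderiv ℝ G (0, 0, x, w.1.1) (0, 0, 0, w.2.2) := by
    rw [← Gam1_fderiv_last S.sa S.sG, ← map_add]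
    simp
  rw [Gam2_base, h0]
  have h1 := hM x hx (w.1, w.2.1) (by
    refine ⟨⟨?_, ?_⟩, ?_⟩ <;> simpa using by assumption)
  have h2 := S.G1 x hx w.1.1 hw1
  have h3 : ‖fderiv ℝ G (0, 0, x, w.1.1) (0, 0, 0, w.2.2) - γ • w.2.2‖ ≤ γ / 2 * ‖w.2.2‖ := by
    rw [← fderiv_last hd]
    have h4 := (fderiv ℝ (fun v => G (0, 0, x, v)) w.1.1 -
      γ • ContinuousLinearMap.id ℝ E).le_opNorm w.2.2
    refine le_trans (le_of_eq ?_) (h4.trans (mul_le_mul_of_nonneg_right h2 (norm_nonneg _)))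
    simp
  calc ‖kt x • Gam1 a G (0, 0, x, w.1) + (fderiv ℝ (Gam1 a G) (0, 0, x, w.1)
        (0, 0, x ^ 2, (w.2.1, 0)) + fderiv ℝ G (0, 0, x, w.1.1) (0, 0, 0, w.2.2)) - γ • w.2.2‖
      = ‖(kt x • Gam1 a G (0, 0, x, w.1) + fderiv ℝ (Gam1 a G) (0, 0, x, w.1)
        (0, 0, x ^ 2, (w.2.1, 0))) +
        (fderiv ℝ G (0, 0, x, w.1.1) (0, 0, 0, w.2.2) - γ • w.2.2)‖ := by congr 1; abel
    _ ≤ M + γ / 2 * ‖w.2.2‖ := (norm_add_le _ _).trans (add_le_add h1 h3)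
    _ ≤ M + γ / 2 * (4 * M / γ + 1) := by gcongr
    _ < 3 / 4 * γ * (4 * M / γ + 1) := by
        have h5 : γ * (4 * M / γ) = 4 * M := by field_simp
        nlinarith

/-- All constants. -/
structure Cst (a : ℝ × ℝ × ℝ × E → ℝ) (G : ℝ × ℝ × ℝ × E → E) (ρ ρ₁ ρ₂ r A B m : ℝ) : Prop where
  ρ₁pos : 0 < ρ₁
  ρ₂pos : 0 < ρ₂
  rpos : 0 < r
  Apos : 0 < A
  Bpos : 0 < B
  mpos : 0 < m
  c1 : ∀ t s : ℝ, |t| < r → |s| < r → ∀ x ∈ Icc (0 : ℝ) (1 / 5), ∀ u : E, ‖u‖ ≤ ρ →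
    ContDiffAt ℝ ∞ a (t, s, x, u) ∧ ContDiffAt ℝ ∞ G (t, s, x, u) ∧ 0 ≤ a (t, s, x, u) ∧
      a (t, s, x, u) ≤ A
  c2 : ∀ t s : ℝ, |t| < r → |s| < r → ∀ x ∈ Icc (0 : ℝ) (1 / 5), ∀ w : E × E, ‖w.1‖ ≤ ρ →
    ‖w.2‖ ≤ ρ₁ → |qq a (t, s, x, w)| ≤ B
  c3 : ∀ t s : ℝ, |t| < r → |s| < r → ∀ x ∈ Icc (0 : ℝ) (4 / 25), ∀ u : E, ‖u‖ ≤ ρ →
    m ≤ a (t, s, x, u)
  c4 : ∀ t s : ℝ, |t| < r → |s| < r → 0 ≤ t → ∀ x ∈ Icc (0 : ℝ) (4 / 25), ∀ u : E, ‖u‖ ≤ ρ →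
    ‖u - t • G (t, s, x, u)‖ ≤ ρ
  c5 : ∀ t s : ℝ, |t| < r → |s| < r → ∀ x ∈ Icc (0 : ℝ) (4 / 25), ∀ w : E × E, ‖w.1‖ ≤ ρ →
    ‖w.2‖ ≤ ρ₁ → ContDiffAt ℝ ∞ (Gam1 a G) (t, s, x, w)
  c6 : ∀ t s : ℝ, |t| < r → |s| < r → 0 ≤ t → ∀ x ∈ Icc (0 : ℝ) (4 / 25), ∀ w : E × E,
    ‖w.1‖ ≤ ρ → ‖w.2‖ ≤ ρ₁ → ‖w.2 - t • Gam1 a G (t, s, x, w)‖ ≤ ρ₁
  c7 : ∀ t s : ℝ, |t| < r → |s| < r → 0 ≤ t → ∀ x ∈ Icc (0 : ℝ) (4 / 25),
    ∀ w : (E × E) × (E × E), ‖w.1.1‖ ≤ ρ → ‖w.1.2‖ ≤ ρ₁ → ‖w.2.1‖ ≤ ρ₁ → ‖w.2.2‖ ≤ ρ₂ →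
      ‖w.2.2 - t • Gam2 a G (t, s, x, w)‖ ≤ ρ₂

theorem exists_Cst (S : SysC a G γ ρ ε₀ upl) :
    ∃ ρ₁ ρ₂ r A B m : ℝ, Cst a G ρ ρ₁ ρ₂ r A B m := by
  have hγ := S.γpos
  have hρ := S.ρpos
  obtain ⟨ρ₁, hρ₁, hl1⟩ := level1 S
  obtain ⟨ρ₂, hρ₂, hl2⟩ := level2 S ρ₁
  have hK0 : IsCompact (Metric.closedBall (0 : E) ρ) := isCompact_closedBall _ _
  have hK1 : IsCompact (Metric.closedBall (0 : E) ρ ×ˢ Metric.closedBall (0 : E) ρ₁) :=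
    hK0.prod (isCompact_closedBall _ _)
  have hK2 : IsCompact ((Metric.closedBall (0 : E) ρ ×ˢ Metric.closedBall (0 : E) ρ₁) ×ˢ
      (Metric.closedBall (0 : E) ρ₁ ×ˢ Metric.closedBall (0 : E) ρ₂)) :=
    hK1.prod ((isCompact_closedBall _ _).prod (isCompact_closedBall _ _))
  have hS1 := SF_Gam1 S.sa S.sG
  have hS2 := SF_Gam2 S.sa S.sG
  -- bound of `a`
  obtain ⟨A0, hA0, hA⟩ := base_bound hK0 (1 / 5) (fun p : ℝ × E => a (0, 0, p.1, p.2)) (by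
      intro x u
      exact ContinuousAt.comp (f := fun p : ℝ × E => ((0, 0, p.1, p.2) : ℝ × ℝ × ℝ × E))
          (g := a) (x := (x, u)) (m7a_SF_cont S.sa x u) (Continuous.continuousAt (by fun_prop)))
  -- `qq a`
  have hq : SF (qq a) := by
    have h1 : SF (fun w : ℝ × ℝ × ℝ × (E × E) => (2 * kt w.2.2.1) •
        a (w.1, w.2.1, w.2.2.1, w.2.2.2.1) + pro a w) :=
      m7a_SF_add (m7a_SF_smul (m7a_SF_of (contDiff_const.mul (kt_smooth.comp (by fun_prop))))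
        (m7a_SF_fst S.sa)) S.sa.pro
    exact h1
  obtain ⟨B0, hB0, hB⟩ := base_bound hK1 (1 / 5) (fun p : ℝ × (E × E) => qq a (0, 0, p.1, p.2)) (by
      intro x u
      exact ContinuousAt.comp (f := fun p : ℝ × (E × E) => ((0, 0, p.1, p.2) : ℝ × ℝ × ℝ × (E × E)))
          (g := qq a) (x := (x, u)) (m7a_SF_cont hq x u) (Continuous.continuousAt (by fun_prop)))
  -- positive lower bound of `a`
  obtain ⟨m, hm, hma⟩ : ∃ m > 0, ∀ x ∈ Icc (0 : ℝ) (4 / 25), ∀ u : E, ‖u‖ ≤ ρ →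
      m < a (0, 0, x, u) := by
    have hcomp : IsCompact (Icc (0 : ℝ) (4 / 25) ×ˢ Metric.closedBall (0 : E) ρ) :=
      isCompact_Icc.prod hK0
    have hne : (Icc (0 : ℝ) (4 / 25) ×ˢ Metric.closedBall (0 : E) ρ).Nonempty :=
      ⟨(0, 0), ⟨by norm_num, by norm_num⟩, by simp [hρ.le]⟩
    have hcont : Continuous (fun p : ℝ × E => a (0, 0, p.1, p.2)) :=
      continuous_iff_continuousAt.2 fun p => by
        exact ContinuousAt.comp (f := fun p : ℝ × E => ((0, 0, p.1, p.2) : ℝ × ℝ × ℝ × E))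
          (g := a) (x := p) (m7a_SF_cont S.sa p.1 p.2) (Continuous.continuousAt (by fun_prop))
    obtain ⟨p, hp, hmin⟩ := hcomp.exists_isMinOn hne hcont.continuousOn
    have hpos : 0 < a (0, 0, p.1, p.2) := S.apos p.1 hp.1 p.2 (by simpa using hp.2)
    refine ⟨a (0, 0, p.1, p.2) / 2, by positivity, ?_⟩
    intro x hx u hu
    have h1 : a (0, 0, p.1, p.2) ≤ a (0, 0, x, u) :=
      hmin (a := (x, u)) ⟨hx, by simpa using hu⟩
    linarith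
  -- uniform neighbourhoods
  obtain ⟨r1, hr1, h1⟩ := unif_base hK0 (x₀ := 0) (x₁ := 1 / 5)
    (Q := fun w => ContDiffAt ℝ ∞ a w ∧ ContDiffAt ℝ ∞ G w ∧ 0 ≤ a w ∧ a w < A0 + 1) (by
      intro x hx u hu
      have e1 := S.sa x u
      have e2 := S.sG x u
      have e3 := S.ann x hx u (by simpa using hu)
      have e4 : ∀ᶠ w in 𝓝 ((0, 0, x, u) : ℝ × ℝ × ℝ × E), a w < A0 + 1 := by
        apply (m7a_SF_cont S.sa x u).eventually_lt continuousAt_const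
        have := hA x hx u hu
        have h2 := (le_abs_self _).trans this
        linarith
      filter_upwards [e1, e2, e3, e4] with w a1 a2 a3 a4 using ⟨a1, a2, a3, a4⟩)
  obtain ⟨r2, hr2, h2⟩ := unif_base hK1 (x₀ := 0) (x₁ := 1 / 5)
    (Q := fun w => |qq a w| < B0 + 1) (by
      intro x hx u hu
      apply (m7a_SF_cont hq x u).abs.eventually_lt continuousAt_const
      have := hB x hx u hu
      rw [Real.norm_eq_abs] at this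
      linarith)
  obtain ⟨r3, hr3, h3⟩ := unif_base hK0 (x₀ := 0) (x₁ := 4 / 25)
    (Q := fun w => m < a w) (by
      intro x hx u hu
      exact continuousAt_const.eventually_lt (m7a_SF_cont S.sa x u)
        (hma x hx u (by simpa using hu)))
  obtain ⟨r4, hr4, h4⟩ := lemU hK0 (Γ := G) (pj := fun u => u) continuous_id hγ hρ
    (x₁ := 4 / 25) (fun x _ u _ => m7a_SF_cont S.sG x u) (by
      intro x hx u hu
      refine (S.G0 x hx u (by simpa using hu)).trans_lt ?_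
      nlinarith [mul_pos hγ hρ]) (by intro u hu; simpa using hu)
  obtain ⟨r5, hr5, h5⟩ := unif_base hK1 (x₀ := 0) (x₁ := 4 / 25)
    (Q := fun w => ContDiffAt ℝ ∞ (Gam1 a G) w) (fun x _ w _ => hS1 x w)
  obtain ⟨r6, hr6, h6⟩ := lemU hK1 (Γ := Gam1 a G) (pj := fun w => w.2) continuous_snd hγ hρ₁
    (x₁ := 4 / 25) (fun x _ w _ => m7a_SF_cont hS1 x w) (by
      intro x hx w hw
      exact hl1 x hx w (by simpa using hw.1) (by simpa using hw.2)) (by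
      intro w hw; simpa using hw.2)
  obtain ⟨r7, hr7, h7⟩ := lemU hK2 (Γ := Gam2 a G) (pj := fun w => w.2.2)
    (continuous_snd.comp continuous_snd) hγ hρ₂
    (x₁ := 4 / 25) (fun x _ w _ => m7a_SF_cont hS2 x w) (by
      intro x hx w hw
      exact hl2 x hx w (by simpa using hw.1.1) (by simpa using hw.1.2) (by simpa using hw.2.1)
        (by simpa using hw.2.2)) (by
      intro w hw; simpa using hw.2.2)
  have hmin : ∀ y : ℝ, y < min r1 (min r2 (min r3 (min r4 (min r5 (min r6 r7))))) →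
      y < r1 ∧ y < r2 ∧ y < r3 ∧ y < r4 ∧ y < r5 ∧ y < r6 ∧ y < r7 := by
    intro y hy
    simpa only [lt_min_iff] using hy
  refine ⟨ρ₁, ρ₂, min r1 (min r2 (min r3 (min r4 (min r5 (min r6 r7))))), A0 + 1, B0 + 1, m,
    hρ₁, hρ₂, by simp only [lt_min_iff]; exact ⟨hr1, hr2, hr3, hr4, hr5, hr6, hr7⟩,
    by linarith, by linarith, hm, ?_, ?_, ?_, ?_, ?_, ?_, ?_⟩
  · intro t s ht hs x hx u hu
    obtain ⟨b1, b2, b3, b4⟩ := h1 t s (hmin _ ht).1 (hmin _ hs).1 x hx u (by simpa using hu)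
    exact ⟨b1, b2, b3, b4.le⟩
  · intro t s ht hs x hx w hw1 hw2
    exact (h2 t s (hmin _ ht).2.1 (hmin _ hs).2.1 x hx w
      ⟨by simpa using hw1, by simpa using hw2⟩).le
  · intro t s ht hs x hx u hu
    exact (h3 t s (hmin _ ht).2.2.1 (hmin _ hs).2.2.1 x hx u (by simpa using hu)).le
  · intro t s ht hs ht0 x hx u hu
    exact h4 t s (hmin _ ht).2.2.2.1 (hmin _ hs).2.2.2.1 ht0 x hx u (by simpa using hu)
  · intro t s ht hs x hx w hw1 hw2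
    exact h5 t s (hmin _ ht).2.2.2.2.1 (hmin _ hs).2.2.2.2.1 x hx w
      ⟨by simpa using hw1, by simpa using hw2⟩
  · intro t s ht hs ht0 x hx w hw1 hw2
    exact h6 t s (hmin _ ht).2.2.2.2.2.1 (hmin _ hs).2.2.2.2.2.1 ht0 x hx w
      ⟨by simpa using hw1, by simpa using hw2⟩
  · intro t s ht hs ht0 x hx w hw1 hw2 hw3 hw4
    exact h7 t s (hmin _ ht).2.2.2.2.2.2 (hmin _ hs).2.2.2.2.2.2 ht0 x hx w
      ⟨⟨by simpa using hw1, by simpa using hw2⟩, ⟨by simpa using hw3, by simpa using hw4⟩⟩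

end consts

end Pool.Agent.Helper41.BilA
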