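import Pool.Agent.Helper41.Bil.M7a2

set_option autoImplicit false
set_option linter.unusedSectionVars false

/-!
Piece M7a of MP_190632_an, part 3: one step of the graph transform.
-/

namespace Pool.Agent.Helper41.BilA

open Pool.Agent.Helper58.Bil

open Real Set Filter Topology
open scoped ContDiff

section step

variable {E : Type} [NormedAddCommGroup E] [NormedSpace ℝ E] [FiniteDimensional ℝ E]
  {a : ℝ × ℝ × ℝ × E → ℝ} {G : ℝ × ℝ × ℝ × E → E} {γ ρ ε₀ : ℝ} {upl : ℝ → E}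
  {ρ₁ ρ₂ r A B m ε : ℝ}

/-- smallness of `ε` -/
structure Sml (ε ε₀ r A B : ℝ) : Prop where
  pos : 0 < ε
  lt : ε < ε₀
  t : ∀ x, |tt ε x| < r
  s : ∀ x, |ts ε x| < r
  stA : ∀ x, tt ε x ^ 2 * A ≤ 1 / 200
  qB : ∀ x, |tt ε x * ts ε x| * B ≤ 1 / 2

/-- the class of curves -/
structure Cls (ρ ρ₁ ρ₂ : ℝ) (up : E) (u : ℝ → E) : Prop where
  smooth : ContDiff ℝ ∞ u
  neg : ∀ x ≤ 0, u x = up
  plat : ∀ x ≥ 3 / 20, u x = up
  bd : ∀ x, ‖u x‖ ≤ ρ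
  th1 : ∀ x, ‖th u x‖ ≤ ρ₁
  th2 : ∀ x, ‖th (th u) x‖ ≤ ρ₂

/-- base map -/
noncomputable def Fm (a : ℝ × ℝ × ℝ × E → ℝ) (ε : ℝ) (u : ℝ → E) (x : ℝ) : ℝ :=
  x - tt ε x ^ 2 * a (WW ε u x)

/-- graph transform -/
noncomputable def TT (a : ℝ × ℝ × ℝ × E → ℝ) (G : ℝ × ℝ × ℝ × E → E) (ε : ℝ) (u : ℝ → E)
    (y : ℝ) : E :=
  u (Function.invFun (Fm a ε u) y) - tt ε (Function.invFun (Fm a ε u) y) •
    G (WW ε u (Function.invFun (Fm a ε u) y))

theorem tt_smooth (ε : ℝ) : ContDiff ℝ ∞ (tt ε) := contDiff_const.mul chi_smooth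

theorem ts_smooth (ε : ℝ) : ContDiff ℝ ∞ (ts ε) := contDiff_const.mul (chi_div_smooth 2)

theorem tt_nonpos {ε x : ℝ} (hx : x ≤ 0) : tt ε x = 0 := by simp [tt, chi_nonpos hx]

theorem ts_nonpos {ε x : ℝ} (hx : x ≤ 0) : ts ε x = 0 := by simp [ts, k2, chi_nonpos hx]

theorem tt_nonneg {ε : ℝ} (hε : 0 < ε) (x : ℝ) : 0 ≤ tt ε x := by
  rcases le_or_gt x 0 with hx | hx
  · rw [tt_nonpos hx]
  · exact mul_nonneg hε.le (chi_pos hx).le

omit [FiniteDimensional ℝ E] in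
theorem WW_smooth {u : ℝ → E} (hu : ContDiff ℝ ∞ u) (ε : ℝ) : ContDiff ℝ ∞ (WW ε u) :=
  (tt_smooth ε).prodMk ((ts_smooth ε).prodMk (contDiff_id.prodMk hu))

omit [FiniteDimensional ℝ E] in
theorem WW_nonpos {u : ℝ → E} {x : ℝ} (hx : x ≤ 0) : WW ε u x = (0, 0, x, u x) := by
  simp [WW, tt_nonpos hx, ts_nonpos hx]

omit [FiniteDimensional ℝ E] in
theorem az_near (S : SysC a G γ ρ ε₀ upl) {x : ℝ} (hx : 19 / 100 < x) (t s : ℝ) (u : E) :
    a =ᶠ[𝓝 (t, s, x, u)] fun _ => 0 := by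
  have h1 : ContinuousAt (fun w : ℝ × ℝ × ℝ × E => w.2.2.1) (t, s, x, u) :=
    Continuous.continuousAt (by fun_prop)
  have h2 := h1.eventually (lt_mem_nhds (a := 19 / 100) (b := x) hx)
  filter_upwards [h2] with w hw using S.az w (le_of_lt hw)

omit [FiniteDimensional ℝ E] in
theorem Gz_near (S : SysC a G γ ρ ε₀ upl) {x : ℝ} (hx : 19 / 100 < x) (t s : ℝ) (u : E) :
    G =ᶠ[𝓝 (t, s, x, u)] fun _ => 0 := by
  have h1 : ContinuousAt (fun w : ℝ × ℝ × ℝ × E => w.2.2.1) (t, s, x, u) :=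
    Continuous.continuousAt (by fun_prop)
  have h2 := h1.eventually (lt_mem_nhds (a := 19 / 100) (b := x) hx)
  filter_upwards [h2] with w hw using S.Gz w (le_of_lt hw)

omit [FiniteDimensional ℝ E] in
theorem aSm (S : SysC a G γ ρ ε₀ upl) (C : Cst a G ρ ρ₁ ρ₂ r A B m) (hs : Sml ε ε₀ r A B)
    {u : ℝ → E} (hu : ∀ x, ‖u x‖ ≤ ρ) (x : ℝ) : ContDiffAt ℝ ∞ a (WW ε u x) := by
  rcases le_or_gt x 0 with hx | hx
  · rw [WW_nonpos hx]; exact m7a_SF_self S.sa x _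
  · rcases le_or_gt x (1 / 5) with hx' | hx'
    · exact (C.c1 _ _ (hs.t x) (hs.s x) x ⟨hx.le, hx'⟩ (u x) (hu x)).1
    · exact ContDiffAt.congr_of_eventuallyEq contDiffAt_const
        (az_near S (by linarith : (19 : ℝ) / 100 < x) _ _ _)

omit [FiniteDimensional ℝ E] in
theorem GSm (S : SysC a G γ ρ ε₀ upl) (C : Cst a G ρ ρ₁ ρ₂ r A B m) (hs : Sml ε ε₀ r A B)
    {u : ℝ → E} (hu : ∀ x, ‖u x‖ ≤ ρ) (x : ℝ) : ContDiffAt ℝ ∞ G (WW ε u x) := by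
  rcases le_or_gt x 0 with hx | hx
  · rw [WW_nonpos hx]; exact m7a_SF_self S.sG x _
  · rcases le_or_gt x (1 / 5) with hx' | hx'
    · exact (C.c1 _ _ (hs.t x) (hs.s x) x ⟨hx.le, hx'⟩ (u x) (hu x)).2.1
    · exact ContDiffAt.congr_of_eventuallyEq contDiffAt_const
        (Gz_near S (by linarith : (19 : ℝ) / 100 < x) _ _ _)

omit [FiniteDimensional ℝ E] in
/-- the step is between `0` and `1/200` -/
theorem step_bd (S : SysC a G γ ρ ε₀ upl) (C : Cst a G ρ ρ₁ ρ₂ r A B m) (hs : Sml ε ε₀ r A B)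
    {u : ℝ → E} (hu : ∀ x, ‖u x‖ ≤ ρ) (x : ℝ) :
    0 ≤ tt ε x ^ 2 * a (WW ε u x) ∧ tt ε x ^ 2 * a (WW ε u x) ≤ 1 / 200 := by
  rcases le_or_gt x 0 with hx | hx
  · rw [tt_nonpos hx]; norm_num
  · rcases le_or_gt x (1 / 5) with hx' | hx'
    · obtain ⟨_, _, h1, h2⟩ := C.c1 _ _ (hs.t x) (hs.s x) x ⟨hx.le, hx'⟩ (u x) (hu x)
      refine ⟨mul_nonneg (sq_nonneg _) h1, le_trans ?_ (hs.stA x)⟩
      exact mul_le_mul_of_nonneg_left h2 (sq_nonneg _)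
    · have : a (WW ε u x) = 0 := S.az _ (by simp only [WW]; linarith)
      rw [this]; norm_num

theorem Fm_smooth (S : SysC a G γ ρ ε₀ upl) (C : Cst a G ρ ρ₁ ρ₂ r A B m) (hs : Sml ε ε₀ r A B)
    {u : ℝ → E} (hu : Cls ρ ρ₁ ρ₂ (upl ε) u) : ContDiff ℝ ∞ (Fm a ε u) := by
  rw [contDiff_iff_contDiffAt]
  intro x
  have h1 : ContDiffAt ℝ ∞ (fun x => a (WW ε u x)) x :=
    ContDiffAt.comp x (aSm S C hs hu.bd x) (WW_smooth hu.smooth ε).contDiffAt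
  exact contDiffAt_id.sub (((tt_smooth ε).contDiffAt.pow 2).mul h1)

omit [FiniteDimensional ℝ E] in
theorem Fm_nonpos {u : ℝ → E} {x : ℝ} (hx : x ≤ 0) : Fm a ε u x = x := by
  simp [Fm, tt_nonpos hx]

omit [FiniteDimensional ℝ E] in
theorem Fm_big (S : SysC a G γ ρ ε₀ upl) {u : ℝ → E} {x : ℝ} (hx : 19 / 100 ≤ x) :
    Fm a ε u x = x := by
  have : a (WW ε u x) = 0 := S.az _ (by simpa only [WW] using hx)
  simp [Fm, this]

theorem Fm_deriv_pos (S : SysC a G γ ρ ε₀ upl) (C : Cst a G ρ ρ₁ ρ₂ r A B m)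
    (hs : Sml ε ε₀ r A B) {u : ℝ → E} (hu : Cls ρ ρ₁ ρ₂ (upl ε) u) (x : ℝ) :
    0 < deriv (Fm a ε u) x := by
  have hsm := Fm_smooth S C hs hu
  rcases lt_trichotomy x 0 with hx | hx | hx
  · have h1 : Fm a ε u =ᶠ[𝓝 x] id := by
      filter_upwards [gt_mem_nhds hx] with y hy using Fm_nonpos (le_of_lt hy)
    rw [h1.deriv_eq]; simp
  · subst hx
    have h1 : HasDerivAt (Fm a ε u) (deriv (Fm a ε u) 0) 0 :=
      (hsm.differentiable (by simp) 0).hasDerivAt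
    have h2 : HasDerivWithinAt (Fm a ε u) 1 (Iic 0) 0 :=
      (hasDerivWithinAt_id (0 : ℝ) (Iic 0)).congr (fun y hy => Fm_nonpos hy)
        (Fm_nonpos le_rfl)
    have h3 := (uniqueDiffWithinAt_Iic (0 : ℝ)).eq_deriv _ h1.hasDerivWithinAt h2
    rw [h3]; norm_num
  · rcases lt_or_ge x (1 / 5) with hx' | hx'
    · have hd := hasDerivAt_f (a := a) (ε := ε) hx (hu.smooth.differentiable (by simp) x)
        ((aSm S C hs hu.bd x).differentiableAt (by simp))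
      have h2 : deriv (Fm a ε u) x = _ := hd.deriv
      rw [h2]
      have h3 := C.c2 _ _ (hs.t x) (hs.s x) x ⟨hx.le, hx'.le⟩ (u x, th u x) (hu.bd x) (hu.th1 x)
      have h4 : |tt ε x * ts ε x * qq a (WW ε (fun y => (u y, th u y)) x)| ≤ 1 / 2 := by
        rw [abs_mul]
        exact (mul_le_mul_of_nonneg_left h3 (abs_nonneg _)).trans (hs.qB x)
      have h5 := (abs_le.1 h4).2
      linarith
    · have h1 : Fm a ε u =ᶠ[𝓝 x] id := by
        filter_upwards [lt_mem_nhds (show (19 : ℝ) / 100 < x by linarith)] with y hy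
          using Fm_big S (le_of_lt hy)
      rw [h1.deriv_eq]; simp

theorem Fm_strictMono (S : SysC a G γ ρ ε₀ upl) (C : Cst a G ρ ρ₁ ρ₂ r A B m)
    (hs : Sml ε ε₀ r A B) {u : ℝ → E} (hu : Cls ρ ρ₁ ρ₂ (upl ε) u) :
    StrictMono (Fm a ε u) := strictMono_of_deriv_pos (Fm_deriv_pos S C hs hu)

theorem Fm_surj (S : SysC a G γ ρ ε₀ upl) (C : Cst a G ρ ρ₁ ρ₂ r A B m)
    (hs : Sml ε ε₀ r A B) {u : ℝ → E} (hu : Cls ρ ρ₁ ρ₂ (upl ε) u) :
    Function.Surjective (Fm a ε u) := by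
  apply (Fm_smooth S C hs hu).continuous.surjective
  · refine tendsto_atTop_mono' atTop ?_ tendsto_id
    filter_upwards [eventually_ge_atTop (19 / 100 : ℝ)] with x hx using (Fm_big S hx).ge
  · refine tendsto_atBot_mono' atBot ?_ tendsto_id
    filter_upwards [eventually_le_atBot (0 : ℝ)] with x hx using (Fm_nonpos hx).le

theorem inv_Fm (S : SysC a G γ ρ ε₀ upl) (C : Cst a G ρ ρ₁ ρ₂ r A B m)
    (hs : Sml ε ε₀ r A B) {u : ℝ → E} (hu : Cls ρ ρ₁ ρ₂ (upl ε) u) (x : ℝ) :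
    Function.invFun (Fm a ε u) (Fm a ε u x) = x :=
  Function.leftInverse_invFun (Fm_strictMono S C hs hu).injective x

theorem Fm_inv (S : SysC a G γ ρ ε₀ upl) (C : Cst a G ρ ρ₁ ρ₂ r A B m)
    (hs : Sml ε ε₀ r A B) {u : ℝ → E} (hu : Cls ρ ρ₁ ρ₂ (upl ε) u) (y : ℝ) :
    Fm a ε u (Function.invFun (Fm a ε u) y) = y :=
  Function.rightInverse_invFun (Fm_surj S C hs hu) y

theorem TT_Fm (S : SysC a G γ ρ ε₀ upl) (C : Cst a G ρ ρ₁ ρ₂ r A B m)
    (hs : Sml ε ε₀ r A B) {u : ℝ → E} (hu : Cls ρ ρ₁ ρ₂ (upl ε) u) (x : ℝ) :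
    TT a G ε u (Fm a ε u x) = u x - tt ε x • G (WW ε u x) := by
  unfold TT
  rw [inv_Fm S C hs hu]

theorem inv_smooth (S : SysC a G γ ρ ε₀ upl) (C : Cst a G ρ ρ₁ ρ₂ r A B m)
    (hs : Sml ε ε₀ r A B) {u : ℝ → E} (hu : Cls ρ ρ₁ ρ₂ (upl ε) u) :
    ContDiff ℝ ∞ (Function.invFun (Fm a ε u)) := by
  have hsm := Fm_smooth S C hs hu
  let e : ℝ ≃o ℝ := (Fm_strictMono S C hs hu).orderIsoOfSurjective _ (Fm_surj S C hs hu)
  have he : ∀ x, e x = Fm a ε u x := fun x => rfl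
  have h1 : ContDiff ℝ ∞ (e.toHomeomorph.symm : ℝ → ℝ) := by
    apply Homeomorph.contDiff_symm_deriv e.toHomeomorph
      (f' := deriv (Fm a ε u)) (fun x => (Fm_deriv_pos S C hs hu x).ne')
    · intro x
      exact (hsm.differentiable (by simp) x).hasDerivAt
    · exact hsm
  have h2 : (e.toHomeomorph.symm : ℝ → ℝ) = Function.invFun (Fm a ε u) := by
    funext y
    apply (Fm_strictMono S C hs hu).injective
    rw [Fm_inv S C hs hu]
    exact e.apply_symm_apply y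
  rwa [h2] at h1

theorem TT_smooth (S : SysC a G γ ρ ε₀ upl) (C : Cst a G ρ ρ₁ ρ₂ r A B m)
    (hs : Sml ε ε₀ r A B) {u : ℝ → E} (hu : Cls ρ ρ₁ ρ₂ (upl ε) u) :
    ContDiff ℝ ∞ (TT a G ε u) := by
  have h1 := inv_smooth S C hs hu
  have h2 : ContDiff ℝ ∞ (fun x => u x - tt ε x • G (WW ε u x)) := by
    rw [contDiff_iff_contDiffAt]
    intro x
    exact hu.smooth.contDiffAt.sub ((tt_smooth ε).contDiffAt.smul
      (ContDiffAt.comp x (GSm S C hs hu.bd x) (WW_smooth hu.smooth ε).contDiffAt))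
  exact h2.comp h1

omit [FiniteDimensional ℝ E] in
theorem th_sub_smul {u H : ℝ → E} {x : ℝ} (hu : DifferentiableAt ℝ u x)
    (hH : DifferentiableAt ℝ H x) :
    th (fun y => u y - tt ε y • H y) x = th u x - tt ε x • (kt x • H x + th H x) := by
  have ht : DifferentiableAt ℝ (tt ε) x := (tt_smooth ε).differentiable (by simp) x
  have h1 : deriv (fun y => u y - tt ε y • H y) x =
      deriv u x - (tt ε x • deriv H x + deriv (tt ε) x • H x) := by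
    have := (hu.hasDerivAt.sub (ht.hasDerivAt.smul hH.hasDerivAt)).deriv
    exact this
  have h2 : x ^ 2 * deriv (tt ε) x = kt x * tt ε x := th_tt ε x
  unfold th
  rw [h1, smul_sub, smul_add, smul_smul, smul_smul, h2, smul_add, smul_smul, smul_smul]
  rw [mul_comm (kt x) (tt ε x), mul_comm (x ^ 2) (tt ε x)]
  abel

omit [FiniteDimensional ℝ E] in
theorem th_pair {u v : ℝ → E} {x : ℝ} (hu : DifferentiableAt ℝ u x)
    (hv : DifferentiableAt ℝ v x) : th (fun y => (u y, v y)) x = (th u x, th v x) := by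
  unfold th
  rw [(hu.hasDerivAt.prodMk hv.hasDerivAt).deriv]
  rfl

theorem th_diff {F : Type} [NormedAddCommGroup F] [NormedSpace ℝ F] {u : ℝ → F}
    (hu : ContDiff ℝ ∞ u) : ContDiff ℝ ∞ (th u) :=
  (contDiff_id.pow 2).smul (hu.deriv' )

end step

end Pool.Agent.Helper41.BilA
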