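import Pool.Agent.Helper41.Bil.M7a3

set_option autoImplicit false
set_option linter.unusedSectionVars false

/-!
Piece M7a of MP_190632_an, part 4: the graph transform preserves the class; iteration.
-/

namespace Pool.Agent.Helper41.BilA

open Pool.Agent.Helper58.Bil

open Real Set Filter Topology
open scoped ContDiff

section step2

variable {E : Type} [NormedAddCommGroup E] [NormedSpace ℝ E] [FiniteDimensional ℝ E]
  {a : ℝ × ℝ × ℝ × E → ℝ} {G : ℝ × ℝ × ℝ × E → E} {γ ρ ε₀ : ℝ} {upl : ℝ → E}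
  {ρ₁ ρ₂ r A B m ε : ℝ}

theorem qq_half (C : Cst a G ρ ρ₁ ρ₂ r A B m)
    (hs : Sml ε ε₀ r A B) {u : ℝ → E} (hu : Cls ρ ρ₁ ρ₂ (upl ε) u) {x : ℝ}
    (hx : 0 < x) (hx' : x < 4 / 25) :
    1 - tt ε x * ts ε x * qq a (WW ε (fun y => (u y, th u y)) x) ≠ 0 := by
  have h3 := C.c2 _ _ (hs.t x) (hs.s x) x ⟨hx.le, by linarith⟩ (u x, th u x) (hu.bd x) (hu.th1 x)
  have h4 : |tt ε x * ts ε x * qq a (WW ε (fun y => (u y, th u y)) x)| ≤ 1 / 2 := by
    rw [abs_mul]
    exact (mul_le_mul_of_nonneg_left h3 (abs_nonneg _)).trans (hs.qB x)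
  have h5 := (abs_le.1 h4).2
  intro h6
  linarith

theorem Fm_pos (S : SysC a G γ ρ ε₀ upl) (C : Cst a G ρ ρ₁ ρ₂ r A B m)
    (hs : Sml ε ε₀ r A B) {u : ℝ → E} (hu : Cls ρ ρ₁ ρ₂ (upl ε) u) {x : ℝ}
    (hx : 0 < x) : 0 < Fm a ε u x := by
  have h := Fm_strictMono S C hs hu hx
  rwa [Fm_nonpos (a := a) (ε := ε) (u := u) (le_refl (0 : ℝ))] at h

/-- first derivative of the transform. -/
theorem th_TT (S : SysC a G γ ρ ε₀ upl) (C : Cst a G ρ ρ₁ ρ₂ r A B m)
    (hs : Sml ε ε₀ r A B) {u : ℝ → E} (hu : Cls ρ ρ₁ ρ₂ (upl ε) u) {x : ℝ}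
    (hx : 0 < x) (hx' : x < 4 / 25) :
    th (TT a G ε u) (Fm a ε u x) =
      th u x - tt ε x • Gam1 a G (WW ε (fun y => (u y, th u y)) x) := by
  have hud : DifferentiableAt ℝ u x := hu.smooth.differentiable (by simp) x
  have had : DifferentiableAt ℝ a (WW ε u x) := (aSm S C hs hu.bd x).differentiableAt (by simp)
  have hGd : DifferentiableAt ℝ G (WW ε u x) := (GSm S C hs hu.bd x).differentiableAt (by simp)
  have h1 := th_comp_f (a := a) (ε := ε) (u := u) hx hud had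
    (Fm_pos S C hs hu hx).ne' (qq_half C hs hu hx hx') (φ := TT a G ε u)
    ((TT_smooth S C hs hu).differentiable (by simp) _)
  have h2 : (fun y => TT a G ε u (y - tt ε y ^ 2 * a (WW ε u y))) =
      fun y => u y - tt ε y • G (WW ε u y) := by
    funext y
    exact TT_Fm S C hs hu y
  rw [h2] at h1
  have hGW : DifferentiableAt ℝ (fun y => G (WW ε u y)) x :=
    DifferentiableAt.comp x hGd ((WW_smooth hu.smooth ε).differentiable (by simp) x)
  rw [th_sub_smul hud hGW, th_pro hx hud hGd] at h1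
  unfold Fm
  rw [h1]
  unfold Gam1
  simp only [WW]
  module

theorem th_th_TT (S : SysC a G γ ρ ε₀ upl) (C : Cst a G ρ ρ₁ ρ₂ r A B m)
    (hs : Sml ε ε₀ r A B) {u : ℝ → E} (hu : Cls ρ ρ₁ ρ₂ (upl ε) u) {x : ℝ}
    (hx : 0 < x) (hx' : x < 4 / 25) :
    th (th (TT a G ε u)) (Fm a ε u x) =
      th (th u) x - tt ε x • Gam2 a G
        (WW ε (fun y => ((u y, th u y), (th u y, th (th u) y))) x) := by
  have hud : DifferentiableAt ℝ u x := hu.smooth.differentiable (by simp) x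
  have hth : ContDiff ℝ ∞ (th u) := th_diff hu.smooth
  have hthd : DifferentiableAt ℝ (th u) x := hth.differentiable (by simp) x
  have hp : ContDiff ℝ ∞ (fun y => (u y, th u y)) := hu.smooth.prodMk hth
  have had : DifferentiableAt ℝ a (WW ε u x) := (aSm S C hs hu.bd x).differentiableAt (by simp)
  have h1 := th_comp_f (a := a) (ε := ε) (u := u) hx hud had
    (Fm_pos S C hs hu hx).ne' (qq_half C hs hu hx hx') (φ := th (TT a G ε u))
    ((th_diff (TT_smooth S C hs hu)).differentiable (by simp) _)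
  have h2 : (fun y => th (TT a G ε u) (y - tt ε y ^ 2 * a (WW ε u y))) =ᶠ[𝓝 x]
      fun y => th u y - tt ε y • Gam1 a G (WW ε (fun y => (u y, th u y)) y) := by
    filter_upwards [lt_mem_nhds hx, gt_mem_nhds hx'] with y hy hy'
    exact th_TT S C hs hu hy hy'
  have h2' : th (fun y => th (TT a G ε u) (y - tt ε y ^ 2 * a (WW ε u y))) x =
      th (fun y => th u y - tt ε y • Gam1 a G (WW ε (fun y => (u y, th u y)) y)) x := by
    unfold th at h2 ⊢
    rw [h2.deriv_eq]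
  rw [h2'] at h1
  have hGd : DifferentiableAt ℝ (Gam1 a G) (WW ε (fun y => (u y, th u y)) x) :=
    (C.c5 _ _ (hs.t x) (hs.s x) x ⟨hx.le, hx'.le⟩ (u x, th u x) (hu.bd x)
      (hu.th1 x)).differentiableAt (by simp)
  have hGW : DifferentiableAt ℝ (fun y => Gam1 a G (WW ε (fun y => (u y, th u y)) y)) x :=
    DifferentiableAt.comp x hGd ((WW_smooth hp ε).differentiable (by simp) x)
  rw [th_sub_smul hthd hGW, th_pro hx (hp.differentiable (by simp) x) hGd] at h1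
  have hpair : th (fun y => (u y, th u y)) x = (th u x, th (th u) x) := th_pair hud hthd
  unfold Fm
  rw [h1]
  unfold Gam2
  simp only [WW, hpair]
  module

theorem th_zero_of_const {F : Type} [NormedAddCommGroup F] [NormedSpace ℝ F] {v : ℝ → F} {x : ℝ}
    {c : F} (h : v =ᶠ[𝓝 x] fun _ => c) : th v x = 0 := by
  unfold th
  rw [h.deriv_eq]; simp

/-- the graph transform preserves the class. -/
theorem TT_cls (S : SysC a G γ ρ ε₀ upl) (C : Cst a G ρ ρ₁ ρ₂ r A B m)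
    (hs : Sml ε ε₀ r A B) {u : ℝ → E} (hu : Cls ρ ρ₁ ρ₂ (upl ε) u) :
    Cls ρ ρ₁ ρ₂ (upl ε) (TT a G ε u) := by
  have hsm := TT_smooth S C hs hu
  have hmono := Fm_strictMono S C hs hu
  have hle : ∀ x, Fm a ε u x ≤ x := fun x => by
    have := (step_bd S C hs hu.bd x).1
    unfold Fm; linarith
  have hge : ∀ x, x - 1 / 200 ≤ Fm a ε u x := fun x => by
    have := (step_bd S C hs hu.bd x).2
    unfold Fm; linarith
  have hup : ‖upl ε‖ ≤ ρ := (S.pl ε ⟨hs.pos, hs.lt⟩).1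
  have hneg : ∀ y ≤ 0, TT a G ε u y = upl ε := by
    intro y hy
    have h1 : Fm a ε u y = y := Fm_nonpos hy
    have h2 := TT_Fm S C hs hu y
    rw [h1, tt_nonpos hy, zero_smul, sub_zero, hu.neg y hy] at h2
    exact h2
  have hplx : ∀ x ≥ 3 / 20, u x - tt ε x • G (WW ε u x) = upl ε := by
    intro x hx
    have h1 : G (WW ε u x) = 0 := by
      have h2 := (S.pl ε ⟨hs.pos, hs.lt⟩).2 x hx
      have h3 : chi x = 1 := chi_one (by linarith)
      have h4 : WW ε u x = (ε, ε / x ^ 2, x, upl ε) := by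
        simp only [WW, tt, ts, k2, h3, hu.plat x hx, mul_one]
        congr 2
        ring
      rw [h4]; exact h2
    rw [h1, smul_zero, sub_zero, hu.plat x hx]
  have hplat : ∀ y ≥ 3 / 20, TT a G ε u y = upl ε := by
    intro y hy
    obtain ⟨x, rfl⟩ := Fm_surj S C hs hu y
    rw [TT_Fm S C hs hu, hplx x (hy.trans (hle x))]
  -- the middle region
  have hmid : ∀ y, 0 < y → y ≤ 3 / 20 → ∃ x, 0 < x ∧ x < 4 / 25 ∧ Fm a ε u x = y := by
    intro y hy hy'
    obtain ⟨x, rfl⟩ := Fm_surj S C hs hu y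
    refine ⟨x, ?_, ?_, rfl⟩
    · by_contra hx
      push Not at hx
      rw [Fm_nonpos hx] at hy
      linarith
    · have := hge x
      linarith
  refine ⟨hsm, hneg, hplat, ?_, ?_, ?_⟩
  · intro y
    rcases le_or_gt y 0 with hy | hy
    · rw [hneg y hy]; exact hup
    · rcases le_or_gt y (3 / 20) with hy' | hy'
      · obtain ⟨x, hx, hx', rfl⟩ := hmid y hy hy'
        rw [TT_Fm S C hs hu]
        exact C.c4 _ _ (hs.t x) (hs.s x) (tt_nonneg hs.pos x) x ⟨hx.le, hx'.le⟩ (u x) (hu.bd x)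
      · rw [hplat y hy'.le]; exact hup
  · intro y
    rcases lt_trichotomy y 0 with hy | hy | hy
    · rw [th_zero_of_const (c := upl ε)]
      · simpa using C.ρ₁pos.le
      · filter_upwards [gt_mem_nhds hy] with z hz using hneg z (le_of_lt hz)
    · subst hy
      simp only [th, ne_eq, OfNat.ofNat_ne_zero, not_false_eq_true, zero_pow, zero_smul, norm_zero]
      exact C.ρ₁pos.le
    · rcases le_or_gt y (3 / 20) with hy' | hy'
      · obtain ⟨x, hx, hx', rfl⟩ := hmid y hy hy'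
        rw [th_TT S C hs hu hx hx']
        exact C.c6 _ _ (hs.t x) (hs.s x) (tt_nonneg hs.pos x) x ⟨hx.le, hx'.le⟩ (u x, th u x)
          (hu.bd x) (hu.th1 x)
      · rw [th_zero_of_const (c := upl ε)]
        · simpa using C.ρ₁pos.le
        · filter_upwards [lt_mem_nhds hy'] with z hz using hplat z (le_of_lt hz)
  · intro y
    rcases lt_trichotomy y 0 with hy | hy | hy
    · rw [th_zero_of_const (c := 0)]
      · simpa using C.ρ₂pos.le
      · filter_upwards [gt_mem_nhds hy] with z hz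
        apply th_zero_of_const (c := upl ε)
        filter_upwards [gt_mem_nhds hz] with z' hz' using hneg z' (le_of_lt hz')
    · subst hy
      simp only [th, ne_eq, OfNat.ofNat_ne_zero, not_false_eq_true, zero_pow, zero_smul, norm_zero]
      exact C.ρ₂pos.le
    · rcases le_or_gt y (3 / 20) with hy' | hy'
      · obtain ⟨x, hx, hx', rfl⟩ := hmid y hy hy'
        rw [th_th_TT S C hs hu hx hx']
        exact C.c7 _ _ (hs.t x) (hs.s x) (tt_nonneg hs.pos x) x ⟨hx.le, hx'.le⟩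
          ((u x, th u x), (th u x, th (th u) x)) (hu.bd x) (hu.th1 x) (hu.th1 x) (hu.th2 x)
      · rw [th_zero_of_const (c := 0)]
        · simpa using C.ρ₂pos.le
        · filter_upwards [lt_mem_nhds hy'] with z hz
          apply th_zero_of_const (c := upl ε)
          filter_upwards [lt_mem_nhds hz] with z' hz' using hplat z' (le_of_lt hz')

/-! ### Iteration -/

/-- iterates -/
noncomputable def Uit (a : ℝ × ℝ × ℝ × E → ℝ) (G : ℝ × ℝ × ℝ × E → E) (ε : ℝ) (up : E) :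
    ℕ → ℝ → E
  | 0 => fun _ => up
  | n + 1 => TT a G ε (Uit a G ε up n)

/-- the points down to which the iterates have stabilised -/
noncomputable def zit (a : ℝ × ℝ × ℝ × E → ℝ) (G : ℝ × ℝ × ℝ × E → E) (ε : ℝ) (up : E) :
    ℕ → ℝ
  | 0 => 3 / 20
  | n + 1 => Fm a ε (Uit a G ε up n) (zit a G ε up n)

theorem th_const {F : Type} [NormedAddCommGroup F] [NormedSpace ℝ F] (c : F) :
    th (fun _ : ℝ => c) = fun _ => 0 := by
  funext x; simp [th]

theorem Uit_cls (S : SysC a G γ ρ ε₀ upl) (C : Cst a G ρ ρ₁ ρ₂ r A B m)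
    (hs : Sml ε ε₀ r A B) (n : ℕ) : Cls ρ ρ₁ ρ₂ (upl ε) (Uit a G ε (upl ε) n) := by
  induction n with
  | zero =>
    refine ⟨contDiff_const, fun _ _ => rfl, fun _ _ => rfl, fun _ => (S.pl ε ⟨hs.pos, hs.lt⟩).1,
      ?_, ?_⟩
    · intro x
      simp only [Uit, th_const, norm_zero]; exact C.ρ₁pos.le
    · intro x
      simp only [Uit, th_const, norm_zero]; exact C.ρ₂pos.le
  | succ n ih => exact TT_cls S C hs ih

theorem zit_pos (S : SysC a G γ ρ ε₀ upl) (C : Cst a G ρ ρ₁ ρ₂ r A B m)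
    (hs : Sml ε ε₀ r A B) (n : ℕ) : 0 < zit a G ε (upl ε) n ∧ zit a G ε (upl ε) n ≤ 3 / 20 := by
  induction n with
  | zero => simp only [zit]; norm_num
  | succ n ih =>
    refine ⟨Fm_pos S C hs (Uit_cls S C hs n) ih.1, le_trans ?_ ih.2⟩
    have := (step_bd S C hs (Uit_cls S C hs n).bd (zit a G ε (upl ε) n)).1
    simp only [zit, Fm]; linarith

theorem zit_succ_le (S : SysC a G γ ρ ε₀ upl) (C : Cst a G ρ ρ₁ ρ₂ r A B m)
    (hs : Sml ε ε₀ r A B) (n : ℕ) :
    zit a G ε (upl ε) (n + 1) ≤ zit a G ε (upl ε) n - tt ε (zit a G ε (upl ε) n) ^ 2 * m := by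
  obtain ⟨h1, h2⟩ := zit_pos S C hs n
  have h3 := C.c3 _ _ (hs.t (zit a G ε (upl ε) n)) (hs.s (zit a G ε (upl ε) n))
    (zit a G ε (upl ε) n) ⟨h1.le, by linarith⟩ (Uit a G ε (upl ε) n (zit a G ε (upl ε) n))
    ((Uit_cls S C hs n).bd _)
  have h4 := mul_le_mul_of_nonneg_left h3 (sq_nonneg (tt ε (zit a G ε (upl ε) n)))
  simp only [zit, Fm, WW]
  linarith

theorem zit_anti (S : SysC a G γ ρ ε₀ upl) (C : Cst a G ρ ρ₁ ρ₂ r A B m)
    (hs : Sml ε ε₀ r A B) : Antitone (zit a G ε (upl ε)) := by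
  apply antitone_nat_of_succ_le
  intro n
  have h1 := zit_succ_le S C hs n
  have h2 : 0 ≤ tt ε (zit a G ε (upl ε) n) ^ 2 * m := mul_nonneg (sq_nonneg _) C.mpos.le
  linarith

theorem zit_small (S : SysC a G γ ρ ε₀ upl) (C : Cst a G ρ ρ₁ ρ₂ r A B m)
    (hs : Sml ε ε₀ r A B) {x : ℝ} (hx : 0 < x) : ∃ n, zit a G ε (upl ε) n < x := by
  by_contra hall
  push Not at hall
  have hτ : 0 < tt ε x := mul_pos hs.pos (chi_pos hx)
  have h1 : ∀ n : ℕ, zit a G ε (upl ε) n ≤ 3 / 20 - n * (tt ε x ^ 2 * m) := by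
    intro n
    induction n with
    | zero => simp [zit]
    | succ n ih =>
      have h2 := zit_succ_le S C hs n
      have h3 : tt ε x ≤ tt ε (zit a G ε (upl ε) n) :=
        mul_le_mul_of_nonneg_left (chi_mono (hall n)) hs.pos.le
      have h4 : tt ε x ^ 2 * m ≤ tt ε (zit a G ε (upl ε) n) ^ 2 * m :=
        mul_le_mul_of_nonneg_right (pow_le_pow_left₀ hτ.le h3 2) C.mpos.le
      push_cast
      linarith
  have hpos : 0 < tt ε x ^ 2 * m := mul_pos (pow_pos hτ 2) C.mpos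
  obtain ⟨n, hn⟩ := exists_nat_gt ((3 / 20) / (tt ε x ^ 2 * m))
  rw [div_lt_iff₀ hpos] at hn
  have := h1 n
  have h5 := (zit_pos S C hs n).1
  linarith

theorem Uit_stab_succ (S : SysC a G γ ρ ε₀ upl) (C : Cst a G ρ ρ₁ ρ₂ r A B m)
    (hs : Sml ε ε₀ r A B) (n : ℕ) :
    ∀ x ≥ zit a G ε (upl ε) n, Uit a G ε (upl ε) (n + 1) x = Uit a G ε (upl ε) n x := by
  induction n with
  | zero =>
    intro x hx
    exact (Uit_cls S C hs 1).plat x hx
  | succ n ih =>
    intro y hy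
    have hc := Uit_cls S C hs n
    have hc' := Uit_cls S C hs (n + 1)
    obtain ⟨x, rfl⟩ := Fm_surj S C hs hc y
    have hx : zit a G ε (upl ε) n ≤ x := (Fm_strictMono S C hs hc).le_iff_le.1 hy
    have hW : WW ε (Uit a G ε (upl ε) (n + 1)) x = WW ε (Uit a G ε (upl ε) n) x := by
      simp only [WW, ih x hx]
    have hF : Fm a ε (Uit a G ε (upl ε) (n + 1)) x = Fm a ε (Uit a G ε (upl ε) n) x := by
      simp only [Fm, hW]
    have h1 := TT_Fm S C hs hc' x
    have h2 := TT_Fm S C hs hc x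
    rw [hF, hW, ih x hx] at h1
    exact h1.trans h2.symm

theorem Uit_stab (S : SysC a G γ ρ ε₀ upl) (C : Cst a G ρ ρ₁ ρ₂ r A B m)
    (hs : Sml ε ε₀ r A B) {n k : ℕ} (hnk : n ≤ k) {x : ℝ} (hx : zit a G ε (upl ε) n ≤ x) :
    Uit a G ε (upl ε) k x = Uit a G ε (upl ε) n x := by
  induction k, hnk using Nat.le_induction with
  | base => rfl
  | succ k hnk ih =>
    rw [Uit_stab_succ S C hs k x ((zit_anti S C hs hnk).trans hx), ih]

open Classical in
/-- the solution -/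
noncomputable def uu (a : ℝ × ℝ × ℝ × E → ℝ) (G : ℝ × ℝ × ℝ × E → E) (ε : ℝ) (up : E)
    (x : ℝ) : E :=
  if h : ∃ n, zit a G ε up n < x then Uit a G ε up (Nat.find h) x else up

theorem uu_eq (S : SysC a G γ ρ ε₀ upl) (C : Cst a G ρ ρ₁ ρ₂ r A B m)
    (hs : Sml ε ε₀ r A B) {n : ℕ} {x : ℝ} (hx : zit a G ε (upl ε) n < x) :
    uu a G ε (upl ε) x = Uit a G ε (upl ε) n x := by
  classical
  have h : ∃ n, zit a G ε (upl ε) n < x := ⟨n, hx⟩
  unfold uu
  rw [dif_pos h]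
  exact (Uit_stab S C hs (Nat.find_min' h hx) (Nat.find_spec h).le).symm

theorem uu_near (S : SysC a G γ ρ ε₀ upl) (C : Cst a G ρ ρ₁ ρ₂ r A B m)
    (hs : Sml ε ε₀ r A B) {n : ℕ} {x : ℝ} (hx : zit a G ε (upl ε) n < x) :
    uu a G ε (upl ε) =ᶠ[𝓝 x] Uit a G ε (upl ε) n := by
  filter_upwards [lt_mem_nhds hx] with y hy using uu_eq S C hs hy

theorem th_congr_near {F : Type} [NormedAddCommGroup F] [NormedSpace ℝ F] {u v : ℝ → F} {x : ℝ}
    (h : u =ᶠ[𝓝 x] v) : th u =ᶠ[𝓝 x] th v := by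
  filter_upwards [h.deriv] with y hy
  simp only [th, hy]

theorem solC (S : SysC a G γ ρ ε₀ upl) (C : Cst a G ρ ρ₁ ρ₂ r A B m)
    (hs : Sml ε ε₀ r A B) :
    (∀ x > 0, ContDiffAt ℝ ∞ (uu a G ε (upl ε)) x) ∧
    (∀ x ≥ 3 / 20, uu a G ε (upl ε) x = upl ε) ∧
    (∀ x > 0, ‖uu a G ε (upl ε) x‖ ≤ ρ) ∧
    (∀ x > 0, uu a G ε (upl ε) (x - tt ε x ^ 2 * a (WW ε (uu a G ε (upl ε)) x)) =
      uu a G ε (upl ε) x - tt ε x • G (WW ε (uu a G ε (upl ε)) x)) ∧
    (∀ x > 0, ‖th (uu a G ε (upl ε)) x‖ ≤ ρ₁) ∧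
    (∀ x > 0, ‖th (th (uu a G ε (upl ε))) x‖ ≤ ρ₂) := by
  refine ⟨?_, ?_, ?_, ?_, ?_, ?_⟩
  · intro x hx
    obtain ⟨n, hn⟩ := zit_small S C hs hx
    exact (Uit_cls S C hs n).smooth.contDiffAt.congr_of_eventuallyEq (uu_near S C hs hn)
  · intro x hx
    obtain ⟨n, hn⟩ := zit_small S C hs (show (0 : ℝ) < x by linarith)
    rw [uu_eq S C hs hn]
    exact (Uit_cls S C hs n).plat x hx
  · intro x hx
    obtain ⟨n, hn⟩ := zit_small S C hs hx
    rw [uu_eq S C hs hn]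
    exact (Uit_cls S C hs n).bd x
  · intro x hx
    obtain ⟨n, hn⟩ := zit_small S C hs hx
    have hc := Uit_cls S C hs n
    have hW : WW ε (uu a G ε (upl ε)) x = WW ε (Uit a G ε (upl ε) n) x := by
      simp only [WW, uu_eq S C hs hn]
    have h1 : zit a G ε (upl ε) (n + 1) < Fm a ε (Uit a G ε (upl ε) n) x :=
      Fm_strictMono S C hs hc hn
    rw [hW, uu_eq S C hs hn]
    have h2 : uu a G ε (upl ε) (Fm a ε (Uit a G ε (upl ε) n) x) = _ := uu_eq S C hs h1
    have h3 : Uit a G ε (upl ε) (n + 1) (Fm a ε (Uit a G ε (upl ε) n) x) = _ :=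
      TT_Fm S C hs hc x
    rw [h3] at h2
    exact h2
  · intro x hx
    obtain ⟨n, hn⟩ := zit_small S C hs hx
    rw [(th_congr_near (uu_near S C hs hn)).self_of_nhds]
    exact (Uit_cls S C hs n).th1 x
  · intro x hx
    obtain ⟨n, hn⟩ := zit_small S C hs hx
    rw [(th_congr_near (th_congr_near (uu_near S C hs hn))).self_of_nhds]
    exact (Uit_cls S C hs n).th2 x

end step2

end Pool.Agent.Helper41.BilA
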